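import Pool.Agent.LSG.StmtsC

/-!
# LSG, row TVS: metrizable topological vector spaces are l-stable and S-stable
-/

set_option autoImplicit false

open MeasureTheory Set Topology
open scoped BigOperators Pointwise

namespace Pool.Agent.LSG.H62

/-- composition with a continuous map -/
noncomputable def cmp {X Y : Type} [TopologicalSpace X] [TopologicalSpace Y] (g : C(Y, X)) :
    ↥(Cp X) →L[ℝ] ↥(Cp Y) where
  toFun f := ⟨fun y => f.1 (g y), Continuous.comp f.2 g.continuous⟩
  map_add' _ _ := rfl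
  map_smul' _ _ := rfl
  cont := by
    refine Continuous.subtype_mk ?_ _
    refine continuous_pi fun y => ?_
    exact (continuous_apply (g y)).comp continuous_subtype_val

theorem LEc.symm' {X Y : Type} [TopologicalSpace X] [TopologicalSpace Y] (h : LEc X Y) :
    LEc Y X := by
  obtain ⟨e⟩ := h
  exact ⟨e.symm⟩

theorem LEc.trans' {X Y Z : Type} [TopologicalSpace X] [TopologicalSpace Y] [TopologicalSpace Z]
    (h : LEc X Y) (h' : LEc Y Z) : LEc X Z := by
  obtain ⟨e⟩ := h
  obtain ⟨e'⟩ := h'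
  exact ⟨e.trans e'⟩

theorem lstable (hC : CpeStmt) (hB : BriStmt) {V W : Type} [TopologicalSpace V]
    [TopologicalSpace W] (h : V ≃ₜ W) (hW : LStable W) : LStable V := by
  intro A hA
  obtain ⟨φ, hφ⟩ := (hB.2 V A).1 hA
  let k : A ≃ₜ h '' A := h.image A
  have hk : ∀ a : A, ((k a : h '' A) : W) = h a := fun a => rfl
  have hemb : LEmc (h '' A) := by
    refine ⟨(cmp ⟨h.symm, h.symm.continuous⟩).comp (φ.comp (cmp ⟨k, k.continuous⟩)), ?_⟩
    intro f b
    obtain ⟨a, rfl⟩ := k.surjective b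
    change (φ (cmp ⟨k, k.continuous⟩ f)).1 (h.symm ((k a : h '' A) : W)) = f.1 (k a)
    rw [hk, h.symm_apply_apply, hφ]
    rfl
  have h1 := (hB.1 W (W ⊕ ↥(h '' A))).1 (hW _ ((hB.2 W _).2 hemb))
  have h2 : LEc V W := hC.1 V W ⟨h⟩
  have h3 : LEc (↥(h '' A)) A := hC.1 _ _ ⟨k.symm⟩
  have h4 : LEc (W ⊕ ↥(h '' A)) (V ⊕ A) := hC.2.2.2 W V _ _ (LEc.symm' h2) h3
  exact (hB.1 _ _).2 (LEc.trans' h2 (LEc.trans' h1 h4))

theorem sstable (hC : CpeStmt) (hB : BriStmt) {V W : Type} [TopologicalSpace V]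
    [TopologicalSpace W] (h : V ≃ₜ W) (hW : SStable W) : SStable V := by
  have h1 : LEc (V × OnePoint ℕ) (W × OnePoint ℕ) :=
    hC.1 _ _ ⟨h.prodCongr (Homeomorph.refl (OnePoint ℕ))⟩
  have h2 : LEc (W × OnePoint ℕ) W := (hB.1 _ _).1 hW
  have h3 : LEc V W := hC.1 V W ⟨h⟩
  exact (hB.1 _ _).2 (LEc.trans' h1 (LEc.trans' h2 (LEc.symm' h3)))

theorem tvs (hR : RxsStmt) (hT : TvfStmt) (hC : CpeStmt) (hB : BriStmt) : TvsStmt := by
  intro V _ _ _ _ _ _ _
  obtain ⟨x, hx⟩ := exists_ne (0 : V)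
  obtain ⟨F, hF, hFx⟩ := hT V x hx
  have hFx' : ∀ v : V, F (v - F v • x) = 0 := by
    intro v
    rw [sub_eq_add_neg, ← neg_smul, hFx]
    ring
  let h : V ≃ₜ {v : V // F v = 0} × ℝ :=
    { toFun := fun v => (⟨v - F v • x, hFx' v⟩, F v)
      invFun := fun p => (p.1 : V) + p.2 • x
      left_inv := fun v => by
        change v - F v • x + F v • x = v
        rw [sub_add_cancel]
      right_inv := fun p => by
        obtain ⟨⟨v, hv⟩, t⟩ := p
        have h1 : F (v + t • x) = t := by rw [hFx, hv, zero_add]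
        apply Prod.ext
        · apply Subtype.ext
          change v + t • x - F (v + t • x) • x = v
          rw [h1, add_sub_cancel_right]
        · exact h1
      continuous_toFun := by
        refine Continuous.prodMk (Continuous.subtype_mk ?_ _) hF
        exact continuous_id.sub (hF.smul continuous_const)
      continuous_invFun := by
        exact (continuous_subtype_val.comp continuous_fst).add (continuous_snd.smul continuous_const) }
  obtain ⟨r1, r2⟩ := hR {v : V // F v = 0}
  exact ⟨lstable hC hB h r1, sstable hC hB h r2⟩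

end Pool.Agent.LSG.H62
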