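import Pool.Agent.LSG.StmtsA

/-!
# LSG, row BAI: `G` is a Baire space
-/

set_option autoImplicit false

open MeasureTheory Set Topology
open scoped BigOperators Pointwise

namespace Pool.Agent.LSG.H62

theorem exists_cyl {U : Set K} (hU : IsOpen U) {s : K} (hs : s ∈ U) :
    ∃ n : ℕ, ∀ x : K, (∀ i < n, x i = s i) → x ∈ U := by
  obtain ⟨t, ⟨x, n, rfl⟩, hst, htU⟩ :=
    (PiNat.isTopologicalBasis_cylinders (fun _ : ℕ => ZMod 2)).exists_subset_of_mem_open hs hU
  refine ⟨n, fun y hy => htU ?_⟩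
  rw [PiNat.mem_cylinder_iff] at hst ⊢
  exact fun i hi => (hy i hi).trans (hst i hi)

theorem not_open_singleton (x : K) : ¬ IsOpen ({x} : Set K) := by
  intro h
  obtain ⟨n, hn⟩ := exists_cyl h (mem_singleton x)
  have h1 : Function.update x n (x n + 1) ∈ ({x} : Set K) := hn _ fun i hi => by
    rw [Function.update_of_ne (by omega)]
  have h2 := congrFun (mem_singleton_iff.1 h1) n
  rw [Function.update_self] at h2
  exact one_ne_zero (add_eq_left.1 h2)

theorem bai : BaiStmt := by
  intro G hG P hP hcov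
  let F : ℕ → Set K := fun m => closure (Subtype.val '' P m)
  have key : ∃ m, (interior (F m)).Nonempty := by
    by_contra hcon
    push Not at hcon
    have hopen : ∀ m, IsOpen (F m)ᶜ := fun m => isClosed_closure.isOpen_compl
    have hdense : ∀ m, Dense (F m)ᶜ := fun m => interior_eq_empty_iff_dense_compl.1 (hcon m)
    have hmeas : MeasurableSet (⋂ m, (F m)ᶜ) :=
      MeasurableSet.iInter fun m => (hopen m).measurableSet
    have hunc : ¬ (⋂ m, (F m)ᶜ).Countable := by
      intro hc
      have h1 : Dense (⋂₀ (range (fun m => (F m)ᶜ) ∪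
          (fun x : K => ({x}ᶜ : Set K)) '' (⋂ m, (F m)ᶜ))) := by
        apply dense_sInter_of_isOpen
        · rintro t (⟨m, rfl⟩ | ⟨x, -, rfl⟩)
          · exact hopen m
          · exact isOpen_compl_singleton
        · exact (countable_range _).union (hc.image _)
        · rintro t (⟨m, rfl⟩ | ⟨x, -, rfl⟩)
          · exact hdense m
          · exact dense_compl_singleton_iff_not_open.2 (not_open_singleton x)
      obtain ⟨y, hy⟩ := h1.nonempty
      have h2 : y ∈ ⋂ m, (F m)ᶜ := by
        rw [mem_iInter]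
        exact fun m => hy _ (Or.inl ⟨m, rfl⟩)
      exact hy _ (Or.inr ⟨y, h2, rfl⟩) rfl
    obtain ⟨x, hxG, hxC⟩ := hG _ hmeas hunc
    obtain ⟨m, hm⟩ := hcov ⟨x, hxG⟩
    rw [mem_iInter] at hxC
    exact hxC m (subset_closure ⟨⟨x, hxG⟩, hm, rfl⟩)
  obtain ⟨m, s, hs⟩ := key
  obtain ⟨n, hn⟩ := exists_cyl isOpen_interior hs
  refine ⟨m, n, s, fun x hx => ?_⟩
  have h1 : (x : K) ∈ closure (Subtype.val '' P m) := interior_subset (hn x hx)
  have h2 : x ∈ closure (P m) := closure_subtype.2 h1
  rwa [(hP m).closure_eq] at h2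

end Pool.Agent.LSG.H62
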