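import Pool.Agent.LSG.StmtsD

/-!
# Squad LSG, row ABC: infinitely many copies
-/

set_option autoImplicit false

namespace Pool.Agent.LSG.H62

open Set Topology
open scoped Pointwise

/-- the code of the triple `(m, n, k)` -/
def code (m n k : ℕ) : ℕ := Nat.pair m (Nat.pair n k)

theorem code_inj {m n k m' n' k' : ℕ} (h : code m n k = code m' n' k') :
    m = m' ∧ n = n' ∧ k = k' := by
  unfold code at h
  obtain ⟨h1, h2⟩ := Nat.pair_eq_pair.1 h
  obtain ⟨h3, h4⟩ := Nat.pair_eq_pair.1 h2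
  exact ⟨h1, h3, h4⟩

theorem le_code (m n k : ℕ) : k ≤ code m n k :=
  (Nat.right_le_pair n k).trans (Nat.right_le_pair m _)

/-- the tent -/
noncomputable def tent (t : ℝ) (k : ℕ) : ℝ := max 0 (1 - |t - k|)

theorem tent_nonneg (t : ℝ) (k : ℕ) : 0 ≤ tent t k := le_max_left _ _

theorem tent_ne {t : ℝ} {k : ℕ} (h : tent t k ≠ 0) : |t - k| < 1 := by
  by_contra hc
  push Not at hc
  apply h
  unfold tent
  exact max_eq_left (by linarith)

theorem tent_supp_finite (t : ℝ) : (Function.support fun k : ℕ => tent t k).Finite := by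
  refine (Set.finite_Iic ⌈t + 1⌉₊).subset ?_
  intro k hk
  have h1 := abs_lt.1 (tent_ne hk)
  have h2 : (k : ℝ) ≤ t + 1 := by linarith [h1.1]
  have h3 : (k : ℝ) ≤ (⌈t + 1⌉₊ : ℕ) := h2.trans (Nat.le_ceil _)
  exact_mod_cast h3

theorem tent_sum (t : ℝ) (ht : 1 ≤ t) : ∑ᶠ k : ℕ, tent t k = 1 := by
  set j := ⌊t⌋₊ with hj
  have h1 : (j : ℝ) ≤ t := Nat.floor_le (by linarith)
  have h2 : t < j + 1 := Nat.lt_floor_add_one t
  have hs : (Function.support fun k : ℕ => tent t k) ⊆ ((({j, j + 1} : Finset ℕ)) : Set ℕ) := by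
    intro k hk
    have h3 := abs_lt.1 (tent_ne hk)
    have h4 : (k : ℝ) < (j : ℝ) + 2 := by linarith [h3.1]
    have h5 : (j : ℝ) < (k : ℝ) + 1 := by linarith [h3.2]
    have h6 : k < j + 2 := by exact_mod_cast h4
    have h7 : j < k + 1 := by exact_mod_cast h5
    simp only [Finset.coe_insert, Finset.coe_singleton, Set.mem_insert_iff, Set.mem_singleton_iff]
    omega
  rw [finsum_eq_sum_of_support_subset _ hs, Finset.sum_pair (by omega)]
  have h3 : tent t j = 1 - (t - j) := by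
    unfold tent
    rw [abs_of_nonneg (by linarith)]
    exact max_eq_right (by linarith)
  have h4 : tent t (j + 1) = t - j := by
    unfold tent
    have h5 : t - ((j + 1 : ℕ) : ℝ) ≤ 0 := by push_cast; linarith
    rw [abs_of_nonpos h5]
    push_cast
    rw [max_eq_right (by linarith)]
    ring
  rw [h3, h4]
  ring

theorem tent_cont {H : Type} [TopologicalSpace H] (θ : C(H, ℝ)) (k : ℕ) :
    Continuous fun h => Real.sqrt (tent (θ h) k) := by
  unfold tent
  fun_prop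

/-- a bound for the pairs -/
theorem bound {H : Type} [AddCommGroup H] (U V : Set H) (hVs : ∀ x ∈ V, -x ∈ V)
    (hVU : ∀ a ∈ V, ∀ b ∈ V, ∀ c ∈ V, ∀ e ∈ V, a + b + (c + e) ∈ U) (d : ℕ → H)
    (hd : ∀ s s' r r', s < s' → r < r' → (d s' - d s) - (d r' - d r) ∈ U → s = r ∧ s' = r')
    (x x' : H) : ∃ N : ℕ, 2 ≤ N ∧ ∀ s s', s ≠ s' →
      (∃ v ∈ V, ∃ w ∈ V, x - x' = d s' - d s + v + w) → s + 2 ≤ N := by
  have key : ∀ y : H, ∃ N : ℕ, ∀ s s', s < s' →
      (∃ v ∈ V, ∃ w ∈ V, y = d s' - d s + v + w) → s' + 2 ≤ N := by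
    intro y
    by_cases h : ∃ r r', r < r' ∧ ∃ v ∈ V, ∃ w ∈ V, y = d r' - d r + v + w
    · obtain ⟨r, r', hr, v, hv, w, hw, hy⟩ := h
      refine ⟨r' + 2, ?_⟩
      rintro s s' hs ⟨v1, hv1, w1, hw1, hy1⟩
      have h1 : (d s' - d s) - (d r' - d r) = v + w + (-v1 + -w1) := by
        have h2 : d s' - d s = y - v1 - w1 := by rw [hy1]; abel
        have h3 : d r' - d r = y - v - w := by rw [hy]; abel
        rw [h2, h3]
        abel
      have h2 := hd s s' r r' hs hr (by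
        rw [h1]
        exact hVU _ hv _ hw _ (hVs _ hv1) _ (hVs _ hw1))
      omega
    · refine ⟨0, ?_⟩
      rintro s s' hs h'
      exact absurd ⟨s, s', hs, h'⟩ h
  obtain ⟨N1, h1⟩ := key (x - x')
  obtain ⟨N2, h2⟩ := key (x' - x)
  refine ⟨N1 + N2 + 2, by omega, ?_⟩
  rintro s s' hne ⟨v, hv, w, hw, he⟩
  rcases lt_or_gt_of_ne hne with hlt | hgt
  · have := h1 s s' hlt ⟨v, hv, w, hw, he⟩
    omega
  · have := h2 s' s hgt ⟨-v, hVs _ hv, -w, hVs _ hw, by
      rw [← neg_sub x x', he]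
      abel⟩
    omega

theorem sep_closure {H : Type} [TopologicalSpace H] [TopologicalSpace.MetrizableSpace H]
    (S : Set H) (hS : S.Countable) : TopologicalSpace.SeparableSpace (closure S) := by
  letI := TopologicalSpace.metrizableSpaceMetric H
  exact (hS.isSeparable.closure).separableSpace

theorem abc (hSlo : SloStmt) (hSid : SidStmt) (hPcs : PcsStmt) (hThe : TheStmt) : AbcStmt := by
  intro H _ _ _ _ hU
  obtain ⟨U0, hU0, hF0⟩ := hU
  set U : Set H := U0 ∩ -U0 with hUdef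
  have hUn : U ∈ nhds (0 : H) := Filter.inter_mem hU0 (neg_mem_nhds_zero H hU0)
  have hUs : ∀ x ∈ U, -x ∈ U := by
    rintro x ⟨h1, h2⟩
    exact ⟨h2, by rw [Set.mem_neg, neg_neg]; exact h1⟩
  have hUF : ∀ F : Finset H, ∃ h : H, ∀ g ∈ F, h - g ∉ U := by
    intro F
    obtain ⟨h, hh⟩ := hF0 F
    exact ⟨h, fun g hg hc => hh g hg hc.1⟩
  obtain ⟨V1, hV1, hV1U⟩ := exists_nhds_zero_half hUn
  obtain ⟨V2, hV2, hV2V⟩ := exists_nhds_zero_half hV1
  set V : Set H := V2 ∩ -V2 with hVdef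
  have hVn : V ∈ nhds (0 : H) := Filter.inter_mem hV2 (neg_mem_nhds_zero H hV2)
  have hVs : ∀ x ∈ V, -x ∈ V := by
    rintro x ⟨h1, h2⟩
    exact ⟨h2, by rw [Set.mem_neg, neg_neg]; exact h1⟩
  have hVU : ∀ a ∈ V, ∀ b ∈ V, ∀ c ∈ V, ∀ e ∈ V, a + b + (c + e) ∈ U := fun a ha b hb c hc e he =>
    hV1U _ (hV2V _ ha.1 _ hb.1) _ (hV2V _ hc.1 _ he.1)
  obtain ⟨d, hd1, hd2⟩ := hSid H U hUs hUF
  set G0 : AddSubgroup H := (Finsupp.linearCombination ℤ d).toAddMonoidHom.range with hG0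
  set L : AddSubgroup H := G0.topologicalClosure with hL
  have hLc : IsClosed (L : Set H) := AddSubgroup.isClosed_topologicalClosure _
  have hdL : ∀ s, d s ∈ L := fun s =>
    AddSubgroup.le_topologicalClosure _ ⟨Finsupp.single s 1, by simp⟩
  have hcount : (G0 : Set H).Countable := by
    rw [hG0, AddMonoidHom.coe_range]
    exact Set.countable_range _
  have hLs : TopologicalSpace.SeparableSpace L := sep_closure _ hcount
  obtain ⟨χ, l, ξ, hl, hχf, hχ1, hχV, hξ, hfin⟩ := hPcs H L hLc hLs V hVn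
  choose N hN2 hN using bound U V hVs hVU d hd2
  obtain ⟨θ, hθL, hθN⟩ := hThe H L hLc V χ l ξ ⟨hl, hχf, hχ1, hχV, hξ, hfin⟩ N
  have hact : ∀ m h, χ m h ≠ 0 → Act L χ m h := by
    intro m h hm
    exact ⟨0, L.zero_mem, by rwa [add_zero]⟩
  have hex : ∀ h, ∃ m, χ m h ≠ 0 := by
    intro h
    by_contra hc
    push Not at hc
    have h1 := hχ1 h
    have h2 : ∀ m, (χ m h) ^ 2 = (0 : ℝ) := by
      intro m
      rw [hc m]
      norm_num
    simp only [h2, finsum_zero] at h1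
    exact zero_ne_one h1
  have hθ2 : ∀ h, 2 ≤ θ h := by
    intro h
    obtain ⟨m, hm⟩ := hex h
    have h1 := hθN h m m (hact m h hm) (hact m h hm)
    have h2 : ((2 : ℕ) : ℝ) ≤ (N (ξ m h) (ξ m h) : ℝ) := by exact_mod_cast hN2 _ _
    push_cast at h2
    linarith
  -- the functions
  let a : ℕ → ℕ × ℕ → C(H, ℝ) := fun _ b =>
    ⟨fun h => Real.sqrt (tent (θ h) b.2) * χ b.1 h, (tent_cont θ b.2).mul (χ b.1).continuous⟩
  have ha : ∀ n b h, a n b h = Real.sqrt (tent (θ h) b.2) * χ b.1 h := fun _ _ _ => rfl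
  let τ : ℕ → ℕ × ℕ → H ≃ₜ H := fun n b => Homeomorph.addRight (d (code b.1 n b.2) - l b.1)
  have hτ : ∀ n b h, τ n b h = h + (d (code b.1 n b.2) - l b.1) := fun _ _ _ => rfl
  have hane : ∀ n b h, a n b h ≠ 0 → χ b.1 h ≠ 0 ∧ |θ h - b.2| < 1 := by
    intro n b h hab
    rw [ha n b h] at hab
    refine ⟨right_ne_zero_of_mul hab, tent_ne ?_⟩
    intro h0
    apply left_ne_zero_of_mul hab
    rw [h0, Real.sqrt_zero]
  refine hSlo H (ℕ × ℕ) a τ ?_ ?_ ?_ ?_
  · -- locally finite for fixed n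
    intro n h0
    obtain ⟨W1, hW1, hf1⟩ := hχf h0
    have hW2 : {h : H | |θ h - θ h0| < 1} ∈ nhds h0 := by
      have hc : Filter.Tendsto (fun h => |θ h - θ h0|) (nhds h0) (nhds |θ h0 - θ h0|) :=
        ((θ.continuous.sub continuous_const).abs).tendsto h0
      rw [sub_self, abs_zero] at hc
      exact hc.eventually (gt_mem_nhds one_pos)
    refine ⟨W1 ∩ {h : H | |θ h - θ h0| < 1}, Filter.inter_mem hW1 hW2, ?_⟩
    refine (hf1.prod (Set.finite_Iic ⌈θ h0 + 2⌉₊)).subset ?_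
    rintro ⟨m, k⟩ ⟨h, hh1, hh2, hh3⟩
    obtain ⟨h4, h5⟩ := hane n (m, k) h hh1
    refine ⟨⟨h, h4, hh2⟩, ?_⟩
    have h6 := abs_lt.1 h5
    have h7 := abs_lt.1 (show |θ h - θ h0| < 1 from hh3)
    simp only at h6
    have h8 : (k : ℝ) ≤ θ h0 + 2 := by linarith [h6.1, h7.2]
    have h9 : (k : ℝ) ≤ (⌈θ h0 + 2⌉₊ : ℕ) := h8.trans (Nat.le_ceil _)
    exact_mod_cast h9
  · -- the landing sets
    intro h0
    obtain ⟨W, hW, hX⟩ := hfin h0
    have hW2 : {h : H | h - h0 ∈ V} ∈ nhds h0 := by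
      have hc : Filter.Tendsto (fun h => h - h0) (nhds h0) (nhds (h0 - h0)) :=
        (continuous_id.sub continuous_const).tendsto h0
      rw [sub_self] at hc
      exact hc hVn
    refine ⟨W ∩ {h : H | h - h0 ∈ V}, Filter.inter_mem hW hW2, ?_⟩
    have hfinS : (⋃ x ∈ {x : H | ∃ m, ∃ h' ∈ W, Act L χ m h' ∧ ξ m h' = x},
        {s : ℕ | ∃ v ∈ V, ∃ w ∈ V, d s = h0 - x + v + w}).Finite := by
      refine Set.Finite.biUnion hX fun x _ => Set.Subsingleton.finite ?_
      rintro s ⟨v, hv, w, hw, hs⟩ s' ⟨v', hv', w', hw', hs'⟩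
      by_contra hne
      apply hd1 s s' hne
      have : d s - d s' = v + w + (-v' + -w') := by
        rw [hs, hs']
        abel
      rw [this]
      exact hVU _ hv _ hw _ (hVs _ hv') _ (hVs _ hw')
    have hinj : Function.Injective fun p : ℕ × (ℕ × ℕ) => code p.2.1 p.1 p.2.2 := by
      rintro ⟨n, m, k⟩ ⟨n', m', k'⟩ h
      obtain ⟨h1, h2, h3⟩ := code_inj h
      simp only at h1 h2 h3
      rw [h1, h2, h3]
    refine (hfinS.preimage hinj.injOn).subset ?_
    rintro ⟨n, m, k⟩ ⟨h'', ⟨h, hh, hhe⟩, hhW, hhV⟩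
    obtain ⟨hm, -⟩ := hane n (m, k) h hh
    simp only at hm
    rw [hτ] at hhe
    simp only at hhe
    have hzL : -(d (code m n k) - l m) ∈ L := L.neg_mem (L.sub_mem (hdL _) (hl m))
    have hh' : h = h'' + -(d (code m n k) - l m) := by rw [← hhe]; abel
    have hA : Act L χ m h'' := ⟨_, hzL, by rw [← hh']; exact hm⟩
    have hξe : ξ m h = ξ m h'' := by
      rw [hh']
      exact hξ m h'' _ hzL
    have hv := hχV m h hm
    rw [Set.mem_preimage, Set.mem_iUnion₂]
    refine ⟨ξ m h'', ⟨m, h'', hhW, hA, rfl⟩, h'' - h0, hhV, -(h - ξ m h - l m), hVs _ hv, ?_⟩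
    simp only
    rw [hξe, ← hhe]
    abel
  · -- the sum of the squares
    intro n h
    have h1 : ∀ b : ℕ × ℕ, (a n b h) ^ 2 = (χ b.1 h) ^ 2 * tent (θ h) b.2 := by
      intro b
      rw [ha n b h, mul_pow, Real.sq_sqrt (tent_nonneg _ _), mul_comm]
    rw [finsum_congr h1]
    have hχs : (Function.support fun m => (χ m h) ^ 2).Finite := by
      refine (hχf.point_finite h).subset ?_
      intro m hm
      intro h0
      apply hm
      show (χ m h) ^ 2 = 0
      rw [h0]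
      norm_num
    rw [finsum_curry]
    · have h2 : ∀ m : ℕ, ∑ᶠ k : ℕ, (χ m h) ^ 2 * tent (θ h) k = (χ m h) ^ 2 := by
        intro m
        rw [← mul_finsum, tent_sum _ (by linarith [hθ2 h]), mul_one]
      rw [finsum_congr h2]
      exact hχ1 h
    · refine (hχs.prod (tent_supp_finite (θ h))).subset ?_
      rintro ⟨m, k⟩ hmk
      exact ⟨left_ne_zero_of_mul hmk, right_ne_zero_of_mul hmk⟩
  · -- the slots
    rintro n ⟨m, k⟩ n' ⟨m', k'⟩ h h' hh hh' he
    obtain ⟨hm, hk⟩ := hane n (m, k) h hh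
    obtain ⟨hm', hk'⟩ := hane n' (m', k') h' hh'
    simp only at hm hk hm' hk'
    rw [hτ, hτ] at he
    simp only at he
    set s := code m n k with hs
    set s' := code m' n' k' with hs'
    have hzL : (d s - l m) - (d s' - l m') ∈ L :=
      L.sub_mem (L.sub_mem (hdL _) (hl m)) (L.sub_mem (hdL _) (hl m'))
    have hhz : h' = h + ((d s - l m) - (d s' - l m')) := by
      have : h + ((d s - l m) - (d s' - l m')) = h + (d s - l m) - (d s' - l m') := by abel
      rw [this, he]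
      abel
    have hA' : Act L χ m' h := ⟨_, hzL, by rw [← hhz]; exact hm'⟩
    have hξ' : ξ m' h' = ξ m' h := by
      rw [hhz]
      exact hξ m' h _ hzL
    have hv := hχV m h hm
    have hv' := hχV m' h' hm'
    rw [hξ'] at hv'
    have hss : s = s' := by
      by_contra hne
      have h1 := hN (ξ m h) (ξ m' h) s s' hne ⟨-(h - ξ m h - l m), hVs _ hv,
        h' - ξ m' h - l m', hv', by
          rw [hhz]
          abel⟩
      have h2 := hθN h m m' (hact m h hm) hA'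
      have h3 : k ≤ s := le_code m n k
      have h4 : ((k + 2 : ℕ) : ℝ) ≤ (N (ξ m h) (ξ m' h) : ℝ) := by exact_mod_cast (by omega)
      push_cast at h4
      have h5 := abs_lt.1 hk
      linarith [h5.2]
    obtain ⟨h1, h2, h3⟩ := code_inj hss
    exact ⟨h2, by rw [h1, h3]⟩

end Pool.Agent.LSG.H62
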